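import Pool.Agent.R280.SickProd

/-!
If the product of two infinite compact Hausdorff spaces is sick, both factors are metrizable.
-/

set_option autoImplicit false

open Pool.Agent.R280.Sick

universe u u' v

namespace Pool.Agent.Results.MP_1eaa31_an.SickProductMetrizable

/-- If `K` and `L` are infinite compact Hausdorff spaces and `K × L` is sick, then `K`, `L` and
`K × L` are metrizable. -/
theorem result (K : Type u) [TopologicalSpace K] [CompactSpace K] [T2Space K] [Infinite K]
    (L : Type u') [TopologicalSpace L] [CompactSpace L] [T2Space L] [Infinite L]
    (h : IsSick.{max u u', v} (K × L)) :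
    TopologicalSpace.MetrizableSpace K ∧ TopologicalSpace.MetrizableSpace L ∧
      TopologicalSpace.MetrizableSpace (K × L) := by
  obtain ⟨E, _, _, _, _, _, x, T, hT⟩ := h
  have hL : TopologicalSpace.MetrizableSpace L := right_metrizable hT
  have hK : TopologicalSpace.MetrizableSpace K :=
    right_metrizable (hT.homeo (Homeomorph.prodComm K L))
  exact ⟨hK, hL, inferInstance⟩

end Pool.Agent.Results.MP_1eaa31_an.SickProductMetrizable
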